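import Pool.Agent.V7H31.IP.Defs

/-!
# Surfaces and abelian varieties
-/

set_option autoImplicit false
set_option linter.all false

namespace Pool.Agent.V7H31.IP

open Module Polynomial NumberField IsDedekindDomain Filter Topology
open Pool.Agent.W401.Cheb Pool.Agent.N184.HK Pool.Agent.V7H31.OD

lemma map_hsl (n : ℕ) (h : 3 ≤ n) : (Finset.univ : Finset (Fin n)).val.map (hsl n) =
    Multiset.replicate 1 0 + Multiset.replicate (n - 2) 1 + Multiset.replicate 1 2 := by
  obtain ⟨k, rfl⟩ : ∃ k, n = k + 2 := ⟨n - 2, by omega⟩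
  rw [Fin.univ_val_map, List.ofFn_succ, List.ofFn_succ_last]
  have h1 : hsl (k + 2) 0 = 0 := if_pos rfl
  have h2 : hsl (k + 2) (Fin.last k).succ = 2 := by
    rw [hsl, if_neg (by simp), if_pos (by simp)]
  have h3 : (fun i : Fin k => hsl (k + 2) (Fin.castSucc i).succ) = fun _ => 1 := by
    funext i
    have := i.isLt
    rw [hsl, if_neg (by simp), if_neg (by simp; omega)]
  rw [h1, h2, h3, List.ofFn_const]
  have e : k + 2 - 2 = k := rfl
  rw [e]
  rw [← Multiset.cons_coe, ← Multiset.coe_add, Multiset.coe_replicate, Multiset.replicate_one,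
    Multiset.replicate_one, Multiset.singleton_add, Multiset.cons_add]
  rfl

section

variable {K : Type} [Field K] [NumberField K] {ℓ : ℕ} [hp : Fact ℓ.Prime] {ι : Type} [Fintype ι]
  (T : ι → System K ℓ) (ρ : ℕ) (v : HeightOneSpectrum (𝓞 K)) (h : ∀ i, v ∉ (T i).bad)

lemma sum_replicate {α β : Type*} (s : Finset β) (f : β → ℕ) (a : α) :
    ∑ i ∈ s, Multiset.replicate (f i) a = Multiset.replicate (∑ i ∈ s, f i) a := by
  classical
  induction s using Finset.induction_on with
  | empty => simp
  | insert i s hi ih => rw [Finset.sum_insert hi, Finset.sum_insert hi, ih, Multiset.replicate_add]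

lemma newton_eq (hord : ∀ i, (T i).Ord v) : newton T ρ v h = hodge T ρ := by
  have h1 : ∀ i, ∑ φ : Emb K (T i).F, Finset.univ.val.map (((T i).place v (h i)).s φ) =
      Multiset.replicate (deg T i) 0 + Multiset.replicate (((T i).n - 2) * deg T i) 1 +
        Multiset.replicate (deg T i) 2 := by
    intro i
    have h2 : ∀ φ : Emb K (T i).F, Finset.univ.val.map (((T i).place v (h i)).s φ) =
        Multiset.replicate 1 0 + Multiset.replicate ((T i).n - 2) 1 + Multiset.replicate 1 2 := by
      intro φ
      obtain ⟨h', h3⟩ := hord i φ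
      have h4 : ((T i).place v (h i)).s φ = hsl (T i).n := h3
      rw [h4]
      exact map_hsl _ (T i).three
    have hc : Fintype.card (Emb K (T i).F) = deg T i := NumberField.Embeddings.card _ _
    rw [Finset.sum_congr rfl fun φ _ => h2 φ, Finset.sum_const, Finset.card_univ, hc, nsmul_add,
      nsmul_add, Multiset.nsmul_replicate, Multiset.nsmul_replicate, Multiset.nsmul_replicate,
      mul_one, mul_comm (deg T i)]
  rw [newton, Finset.sum_congr rfl fun i _ => h1 i, Finset.sum_add_distrib,
    Finset.sum_add_distrib, sum_replicate, sum_replicate, sum_replicate, hodge,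
    Multiset.replicate_add]
  abel

lemma count_newton : ∑ i, (T i).num v ≤ (newton T ρ v h).count 0 := by
  classical
  rw [newton, Multiset.count_add, Multiset.count_sum']
  refine le_add_of_nonneg_of_le (Nat.zero_le _) (Finset.sum_le_sum fun i _ => ?_)
  rw [Multiset.count_sum']
  have h1 : (T i).num v = ∑ φ : Emb K (T i).F, if (T i).OrdAt v φ then 1 else 0 := by
    rw [Finset.sum_boole, System.num, Set.ncard_eq_toFinset_card', Nat.cast_id]
    congr 1
    ext φ
    simp
  rw [h1]
  refine Finset.sum_le_sum fun φ _ => ?_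
  split_ifs with hφ
  · obtain ⟨h', h3⟩ := hφ
    have h4 : ((T i).place v (h i)).s φ = hsl (T i).n := h3
    rw [Multiset.one_le_count_iff_mem, h4]
    have := (T i).three
    exact Multiset.mem_map.2 ⟨⟨0, by omega⟩, Finset.mem_univ_val _, if_pos rfl⟩
  · exact Nat.zero_le _

end

section

variable {K : Type} [Field K] [NumberField K] {ℓ : ℕ} [hp : Fact ℓ.Prime]
  {T : System K ℓ} (A : Abelian T) (v : HeightOneSpectrum (𝓞 K)) (h : v ∉ T.bad)

include A in
lemma abelian_at (φ : Emb K T.F) (hφ : T.OrdAt v φ) : A.s v h φ = ![0, 0, 1, 1] := by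
  obtain ⟨h', h3⟩ := hφ
  have h4 : (T.place v h).s φ = hsl T.n := h3
  have h5 := A.wedge v h φ
  have hm : (0 : ℚ) ∈ Finset.univ.val.map ((T.place v h).s φ) := by
    rw [h4]
    have := T.three
    exact Multiset.mem_map.2 ⟨⟨0, by omega⟩, Finset.mem_univ_val _, if_pos rfl⟩
  rw [← h5] at hm
  obtain ⟨⟨i, j⟩, hij, h0⟩ := Multiset.mem_map.1 hm
  have hij' : i < j := by
    have := (Finset.mem_filter.1 (Finset.mem_def.2 hij)).2
    exact this
  have hi := A.nonneg v h φ i
  have hj := A.nonneg v h φ j
  have hi0 : A.s v h φ i = 0 := by linarith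
  have hj0 : A.s v h φ j = 0 := by linarith
  have a0 : A.s v h φ 0 = 0 := le_antisymm (by
    rw [← hi0]; exact A.mono v h φ (Fin.zero_le _)) (A.nonneg v h φ 0)
  have h1j : (1 : Fin 4) ≤ j := by
    have := hij'
    rw [Fin.lt_def] at this
    rw [Fin.le_def]
    change 1 ≤ (j : ℕ)
    omega
  have a1 : A.s v h φ 1 = 0 := le_antisymm (by
    rw [← hj0]; exact A.mono v h φ h1j) (A.nonneg v h φ 1)
  have hs := A.sum v h φ
  rw [Fin.sum_univ_four, a0, a1] at hs
  have l2 := A.le_one v h φ 2
  have l3 := A.le_one v h φ 3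
  have a2 : A.s v h φ 2 = 1 := by linarith
  have a3 : A.s v h φ 3 = 1 := by linarith
  funext k
  fin_cases k
  · exact a0
  · exact a1
  · exact a2
  · exact a3

lemma abelian_ord (ho : T.Ord v) : A.Ordinary v h := fun φ => abelian_at A v h φ (ho φ)

lemma abelian_prank : 2 * T.num v ≤ A.prank v h := by
  classical
  have h1 : T.num v = ∑ φ : Emb K T.F, if T.OrdAt v φ then 1 else 0 := by
    rw [Finset.sum_boole, System.num, Set.ncard_eq_toFinset_card', Nat.cast_id]
    congr 1
    ext φ
    simp
  rw [h1, Finset.mul_sum, Abelian.prank]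
  refine Finset.sum_le_sum fun φ _ => ?_
  split_ifs with hφ
  · rw [abelian_at A v h φ hφ]
    have : ((Finset.univ : Finset (Fin 4)).filter fun j => (![0, 0, 1, 1] : Fin 4 → ℚ) j = 0) =
        {0, 1} := by
      ext j
      fin_cases j <;> simp
    rw [this]
    simp
  · simp

end

end Pool.Agent.V7H31.IP
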