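import Pool.Agent.V7H31.IP.Val

/-!
# Traces of Frobenius at the places where no part is ordinary
-/

set_option autoImplicit false
set_option linter.all false

namespace Pool.Agent.V7H31.IP

open NumberField IsDedekindDomain Polynomial
open Pool.Agent.W401.Cheb Pool.Agent.W401.Frob Pool.Agent.N184.HK Pool.Agent.V7H31.OD

section

variable {F C : Type} [Field F] [NumberField F] [Field C] [CharZero C] [IsAlgClosed C]

omit [NumberField F] [CharZero C] [IsAlgClosed C] in
lemma img_inj (φ : F →+* C) : Function.Injective (φ.comp (algebraMap (𝓞 F) F)) :=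
  φ.injective.comp RingOfIntegers.coe_injective

omit [NumberField F] [CharZero C] [IsAlgClosed C] in
lemma img_monic {P : (𝓞 F)[X]} (hP : P.Monic) (φ : F →+* C) : (img φ P).Monic := hP.map _

omit [NumberField F] [CharZero C] in
lemma img_sum {P : (𝓞 F)[X]} (hP : P.Monic) (φ : F →+* C) :
    φ ((-P.nextCoeff : 𝓞 F) : F) = (img φ P).roots.sum := by
  have h1 := (IsAlgClosed.splits (img φ P)).nextCoeff_eq_neg_sum_roots_of_monic (img_monic hP φ)
  have h2 : (img φ P).nextCoeff = φ ((P.nextCoeff : 𝓞 F) : F) := by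
    rw [img, nextCoeff_map (img_inj φ)]
    rfl
  rw [h2] at h1
  have h3 : ((-P.nextCoeff : 𝓞 F) : F) = - ((P.nextCoeff : 𝓞 F) : F) := rfl
  rw [h3, map_neg, h1, neg_neg]

end

section

variable {K : Type} [Field K] [NumberField K] {v : HeightOneSpectrum (𝓞 K)} (w : PlaceAbove v)

/-- An integer of `F` all whose conjugates are positive at the place is divisible by `p`. -/
lemma mem_of_all {F : Type} [Field F] [NumberField F] (hp : (Ideal.absNorm v.asIdeal).Prime)
    (hr : (Ideal.span {(Ideal.absNorm v.asIdeal : 𝓞 F)}).IsRadical) (a : 𝓞 F)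
    (ha : ∀ φ : Emb K F, 0 < w.val (φ (a : F))) :
    ∃ b : 𝓞 F, a = (Ideal.absNorm v.asIdeal : 𝓞 F) * b := by
  set m : ℤ[X] := minpoly ℤ (a : F) with hm
  have hint : IsIntegral ℤ (a : F) := RingOfIntegers.isIntegral_coe a
  have hmon : m.Monic := minpoly.monic hint
  have hmQ : minpoly ℚ (a : F) = m.map (algebraMap ℤ ℚ) :=
    minpoly.isIntegrallyClosed_eq_field_fractions' ℚ hint
  set M : (AlgebraicClosure K)[X] := m.map (algebraMap ℤ (AlgebraicClosure K)) with hM
  have hMmon : M.Monic := hmon.map _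
  have hMM : M = (minpoly ℚ (a : F)).map (algebraMap ℚ (AlgebraicClosure K)) := by
    rw [hmQ, Polynomial.map_map, hM]
    congr 1
    exact RingHom.ext_int _ _
  have hroots : ∀ z ∈ M.roots, 0 < w.val z := by
    intro z hz
    have h1 : z ∈ (minpoly ℚ (a : F)).rootSet (AlgebraicClosure K) := by
      rw [Polynomial.mem_rootSet]
      refine ⟨minpoly.ne_zero (hint.tower_top), ?_⟩
      rw [Polynomial.mem_roots hMmon.ne_zero, IsRoot.def, hMM, eval_map_algebraMap] at hz
      exact hz
    rw [← NumberField.Embeddings.range_eval_eq_rootSet_minpoly] at h1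
    obtain ⟨φ, hφ⟩ := h1
    rw [← hφ]
    exact ha φ
  have hsplit := (IsAlgClosed.splits M).eq_prod_roots_of_monic hMmon
  have hcard : Multiset.card M.roots = m.natDegree := by
    rw [← (IsAlgClosed.splits M).natDegree_eq_card_roots]
    exact hmon.natDegree_map _
  have hdvd : ∀ j < m.natDegree, (Ideal.absNorm v.asIdeal : ℤ) ∣ m.coeff j := by
    intro j hj
    apply dvd_of_pos w hp
    have h1 := (coeff_pos w M.roots hroots j).2 (by rw [hcard]; exact hj)
    rw [← hsplit, hM, coeff_map] at h1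
    exact h1
  have haev : aeval a m = 0 := by
    have h1 : aeval (a : F) m = 0 := minpoly.aeval ℤ (a : F)
    have h2 : aeval (algebraMap (𝓞 F) F a) m = algebraMap (𝓞 F) F (aeval a m) :=
      aeval_algebraMap_apply F a m
    have h3 : algebraMap (𝓞 F) F (aeval a m) = 0 := by rw [← h2]; exact h1
    exact (map_eq_zero_iff _ RingOfIntegers.coe_injective).1 h3
  set I := Ideal.span {(Ideal.absNorm v.asIdeal : 𝓞 F)} with hI
  have hpow : a ^ m.natDegree ∈ I := by
    have h1 := congrArg (aeval a) hmon.as_sum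
    rw [haev, map_add, map_pow, aeval_X, map_sum] at h1
    have h2 : a ^ m.natDegree = - ∑ i ∈ Finset.range m.natDegree, aeval a (C (m.coeff i) * X ^ i) := by
      rw [eq_neg_iff_add_eq_zero]
      exact h1.symm
    rw [h2]
    refine I.neg_mem (I.sum_mem fun i hi => ?_)
    rw [map_mul, map_pow, aeval_X, aeval_C]
    refine I.mul_mem_right _ ?_
    obtain ⟨c, hc⟩ := hdvd i (Finset.mem_range.1 hi)
    rw [hc, map_mul]
    refine I.mul_mem_right _ ?_
    refine Ideal.subset_span ?_
    rw [Set.mem_singleton_iff]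
    simp
  have hmem : a ∈ I := hr ⟨_, hpow⟩
  obtain ⟨b, hb⟩ := Ideal.mem_span_singleton'.1 hmem
  exact ⟨b, by rw [mul_comm]; exact hb.symm⟩

/-- The trace of `b`. -/
lemma trace_sum {F C : Type} [Field F] [NumberField F] [Field C] [CharZero C] [IsAlgClosed C]
    (b : 𝓞 F) : ((Algebra.trace ℤ (𝓞 F) b : ℤ) : C) = ∑ φ : F →+* C, φ (b : F) := by
  have h1 : ((Algebra.trace ℤ (𝓞 F) b : ℤ) : ℚ) = Algebra.trace ℚ F (b : F) :=
    Algebra.coe_trace_int b
  have h2 := trace_eq_sum_embeddings (K := ℚ) (L := F) C (x := (b : F))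
  rw [← h1] at h2
  have h3 : algebraMap ℚ C ((Algebra.trace ℤ (𝓞 F) b : ℤ) : ℚ) =
      ((Algebra.trace ℤ (𝓞 F) b : ℤ) : C) := by simp
  rw [← h3, h2]
  exact Fintype.sum_equiv (RingHom.equivRatAlgHom F C).symm _ _ fun σ => rfl

end

section

variable {K : Type} [Field K] [NumberField K] {ℓ : ℕ} [Fact ℓ.Prime] (T : System K ℓ)
  {v : HeightOneSpectrum (𝓞 K)} (hv : v ∉ T.bad)

/-- The trace of the Frobenius over `F`. -/
noncomputable def System.a (v : HeightOneSpectrum (𝓞 K)) : 𝓞 T.F := - (T.poly v).nextCoeff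

include hv in
lemma card_img {C : Type} [Field C] [CharZero C] [IsAlgClosed C] (φ : T.F →+* C) :
    Multiset.card (img φ (T.poly v)).roots = T.n := by
  have h1 : ∀ {C' : Type} [Field C'] [CharZero C'] [IsAlgClosed C'] (ψ : T.F →+* C'),
      Multiset.card (img ψ (T.poly v)).roots = (T.poly v).natDegree := by
    intro C' _ _ _ ψ
    rw [← (IsAlgClosed.splits _).natDegree_eq_card_roots]
    exact (T.monic v hv).natDegree_map _
  have h2 : Nonempty (Emb K T.F) := inferInstance
  obtain ⟨ψ⟩ := h2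
  rw [h1, ← h1 ψ]
  have h3 := congrArg Multiset.card ((T.place v hv).roots ψ)
  rw [Multiset.card_map, Multiset.card_map] at h3
  rw [h3]
  simp

include hv in
lemma norm_a (φ : T.F →+* ℂ) : ‖φ (T.a v : T.F)‖ ≤ T.n * Ideal.absNorm v.asIdeal := by
  have h2 : φ (T.a v : T.F) = (img φ (T.poly v)).roots.sum := img_sum (T.monic v hv) φ
  rw [h2, ← card_img T hv φ]
  have := T.weil v hv φ
  generalize (img φ (T.poly v)).roots = m at this
  induction m using Multiset.induction_on with
  | empty => simp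
  | cons a s ih =>
    rw [Multiset.sum_cons, Multiset.card_cons]
    refine (norm_add_le _ _).trans ?_
    have h5 := ih fun z hz => this z (Multiset.mem_cons_of_mem hz)
    have h6 := this a (Multiset.mem_cons_self a s)
    push_cast
    rw [h6]
    linarith

lemma sum_pos' {v : HeightOneSpectrum (𝓞 K)} (w : PlaceAbove v) (s : Multiset (AlgebraicClosure K)) :
    (∀ x ∈ s, 0 < w.val x) → 0 < w.val s.sum := by
  induction s using Multiset.induction_on with
  | empty => intro _; rw [Multiset.sum_zero, w.val.map_zero]; exact WithTop.coe_lt_top 0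
  | cons a s ih =>
    intro hs
    rw [Multiset.sum_cons]
    exact (lt_min (hs a (Multiset.mem_cons_self a s))
      (ih fun z hz => hs z (Multiset.mem_cons_of_mem hz))).trans_le (w.val.map_add _ _)

lemma pos_of_not (φ : Emb K T.F) (h : (T.place v hv).s φ ≠ hsl T.n) :
    0 < (T.place v hv).w.val (φ (T.a v : T.F)) := by
  have h0 := ordinary_of_zero T.three ((T.place v hv).mono φ) ((T.place v hv).above φ)
    ((T.place v hv).dual φ) (fun j => rfl) h
  have h2 : φ (T.a v : T.F) = (img φ (T.poly v)).roots.sum := img_sum (T.monic v hv) φ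
  rw [h2]
  refine sum_pos' _ _ fun x hx => ?_
  have h4 := Multiset.mem_map_of_mem (fun z => (T.place v hv).w.val z) hx
  rw [(T.place v hv).roots φ] at h4
  obtain ⟨j, -, hj⟩ := Multiset.mem_map.1 h4
  rw [← hj]
  exact_mod_cast h0 j

lemma not_of_pos (φ : Emb K T.F) (h : 0 < (T.place v hv).w.val (φ (T.a v : T.F))) :
    (T.place v hv).s φ ≠ hsl T.n := by
  intro hns
  set S := T.place v hv with hS
  have h2 : φ (T.a v : T.F) = (img φ (T.poly v)).roots.sum := img_sum (T.monic v hv) φ
  rw [h2] at h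
  have h4 := S.roots φ
  rw [hns] at h4
  have hb := T.three
  let z : Fin T.n := ⟨0, by omega⟩
  have hz : hsl T.n z = 0 := if_pos rfl
  have huniv : (Finset.univ : Finset (Fin T.n)).val = z ::ₘ (Finset.univ.erase z).val := by
    rw [Finset.erase_val]
    exact (Multiset.cons_erase (Finset.mem_univ z)).symm
  rw [huniv, Multiset.map_cons, hz] at h4
  set m := (img φ (T.poly v)).roots with hm
  have h5 : (((0 : ℚ)) : WithTop ℚ) ∈ m.map (fun e => S.w.val e) := by
    rw [h4]; exact Multiset.mem_cons_self _ _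
  obtain ⟨e, he, hev⟩ := Multiset.mem_map.1 h5
  obtain ⟨m', hm'⟩ := Multiset.exists_cons_of_mem he
  rw [hm', Multiset.map_cons, hev, Multiset.cons_inj_right] at h4
  have h6 : ∀ x ∈ m', 0 < S.w.val x := by
    intro x hx
    have h7 := Multiset.mem_map_of_mem (fun e => S.w.val e) hx
    rw [h4] at h7
    obtain ⟨j, hj, hjx⟩ := Multiset.mem_map.1 h7
    have hjz : j ≠ z := (Finset.mem_erase.1 (Finset.mem_def.2 hj)).1
    have hj0 : (j : ℕ) ≠ 0 := fun h0 => hjz (Fin.ext h0)
    rw [← hjx, hsl, if_neg hj0]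
    split_ifs
    · exact_mod_cast (by norm_num : (0 : ℚ) < 2)
    · exact_mod_cast (by norm_num : (0 : ℚ) < 1)
  have h9 : 0 < S.w.val m'.sum := sum_pos' _ m' h6
  rw [hm', Multiset.sum_cons] at h
  have h10 : 0 < S.w.val e := by
    have e1 : e = (e + m'.sum) - m'.sum := by ring
    rw [e1]
    exact (lt_min h h9).trans_le (S.w.val.map_sub _ _)
  rw [hev] at h10
  exact lt_irrefl _ (by exact_mod_cast h10)

lemma a_int (φ : Emb K T.F) : IsIntegral ℤ (φ (T.a v : T.F)) :=
  (RingOfIntegers.isIntegral_coe (T.a v)).map φ.toIntAlgHom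

/-- The set of embeddings at which `T` is ordinary is stable under the Frobenius for the place. -/
lemma stable {σ : GK K} (hσ : ∀ x : 𝓞 (AlgebraicClosure K),
    σ • x - x ^ Ideal.absNorm v.asIdeal ∈ (T.place v hv).w.Q) :
    T.Stable σ {φ | T.OrdAt v φ} := by
  rintro φ ⟨h', h⟩
  refine ⟨⟨hv, ?_⟩, ⟨hv, ?_⟩⟩
  · by_contra hcon
    have h1 := pos_of_not T hv _ hcon
    have h2 := frob_pos' _ hσ _ (a_int T φ) h1
    exact not_of_pos T hv φ h2 h
  · rw [T.sym v hv φ]; exact h

/-- If `T` is not ordinary at any embedding, then the traces of the Frobenius elements are integers. -/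
lemma trace_k (hp : (Ideal.absNorm v.asIdeal).Prime)
    (h : ∀ φ : Emb K T.F, (T.place v hv).s φ ≠ hsl T.n) {σ : GK K} (hσ : IsFrob v σ) :
    ∃ k : ℤ, |k| ≤ T.n * Module.finrank ℚ T.F ∧ T.R.tr σ = (k : ℚ_[ℓ]) := by
  obtain ⟨b, hb⟩ := mem_of_all (T.place v hv).w hp (T.rad v hv hp) (T.a v)
    fun φ => pos_of_not T hv φ (h φ)
  have hN : (0 : ℝ) < (Ideal.absNorm v.asIdeal : ℝ) := by exact_mod_cast hp.pos
  refine ⟨Algebra.trace ℤ (𝓞 T.F) b, ?_, ?_⟩
  · have h1 : ‖((Algebra.trace ℤ (𝓞 T.F) b : ℤ) : ℂ)‖ ≤ T.n * Module.finrank ℚ T.F := by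
      rw [trace_sum (C := ℂ) b]
      refine (norm_sum_le _ _).trans ?_
      have h2 : ∀ φ : T.F →+* ℂ, ‖φ (b : T.F)‖ ≤ (T.n : ℝ) := by
        intro φ
        have h3 := norm_a T hv φ
        have h4 : (T.a v : T.F) = (Ideal.absNorm v.asIdeal : T.F) * (b : T.F) := by
          rw [hb]
          simp
        rw [h4, map_mul, norm_mul, map_natCast, Complex.norm_natCast, mul_comm] at h3
        exact le_of_mul_le_mul_right h3 hN
      refine (Finset.sum_le_card_nsmul _ _ _ fun φ _ => h2 φ).trans ?_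
      rw [Finset.card_univ, NumberField.Embeddings.card, nsmul_eq_mul, mul_comm]
    rw [Complex.norm_intCast] at h1
    exact_mod_cast h1
  · have h1 := congrArg nextCoeff (T.poly_l v hv σ hσ)
    rw [Polynomial.Monic.nextCoeff_prod _ _ fun φ _ => img_monic (T.monic v hv) φ,
      nextCoeff_map (algebraMap ℚ_[ℓ] (PadicAlgCl ℓ)).injective] at h1
    have h2 : (T.R.cp (Ideal.absNorm v.asIdeal) σ).nextCoeff =
        - ((Ideal.absNorm v.asIdeal : ℚ_[ℓ]) * T.R.tr σ) := by
      have e : LinearMap.trace ℚ_[ℓ] T.R.V ((Ideal.absNorm v.asIdeal : ℚ_[ℓ]) • T.R.r σ) =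
          (Ideal.absNorm v.asIdeal : ℚ_[ℓ]) * T.R.tr σ := by
        rw [GalRep.tr, map_smul, smul_eq_mul]
      rw [trace_coeff] at e
      rw [GalRep.cp, ← e, neg_neg]
    have h3 : ∀ φ : T.F →+* PadicAlgCl ℓ, (img φ (T.poly v)).nextCoeff =
        - ((Ideal.absNorm v.asIdeal : PadicAlgCl ℓ) * φ (b : T.F)) := by
      intro φ
      rw [img, nextCoeff_map (img_inj φ)]
      have h4 : (T.poly v).nextCoeff = - ((Ideal.absNorm v.asIdeal : 𝓞 T.F) * b) := by
        rw [← hb, System.a, neg_neg]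
      rw [h4]
      simp
    rw [h2, map_neg, Finset.sum_congr rfl fun φ _ => h3 φ, Finset.sum_neg_distrib, neg_inj,
      ← Finset.mul_sum, ← trace_sum (C := PadicAlgCl ℓ) b, map_mul, map_natCast] at h1
    have hN' : (Ideal.absNorm v.asIdeal : PadicAlgCl ℓ) ≠ 0 := by exact_mod_cast hp.ne_zero
    have h5 := mul_left_cancel₀ hN' h1
    apply (algebraMap ℚ_[ℓ] (PadicAlgCl ℓ)).injective
    rw [h5]
    simp

end

end Pool.Agent.V7H31.IP
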