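import Pool.Agent.V7H31.IP.Conn
import Pool.Agent.V7H31.IP.Num
import Pool.Agent.V7H31.OD.Exact

/-!
# Ordinary reduction at the places which are inert in the coefficient fields
-/

set_option autoImplicit false
set_option linter.all false

namespace Pool.Agent.V7H31.IP

open Module Polynomial NumberField IsDedekindDomain Filter Topology
open Pool.Agent.W401.Cheb Pool.Agent.W528.Ord Pool.Agent.N184.HK Pool.Agent.V7H31.OD

section

variable {K : Type} [Field K] [NumberField K] {ℓ : ℕ} [hp : Fact ℓ.Prime]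

/-- The composition of an element of the Galois group with an embedding. -/
noncomputable def act {F : Type} [Field F] (σ : GK K) (φ : Emb K F) : Emb K F :=
  (σ : AlgebraicClosure K →ₐ[K] AlgebraicClosure K).toRingHom.comp φ

lemma act_apply {F : Type} [Field F] (σ : GK K) (φ : Emb K F) (x : F) : act σ φ x = σ (φ x) := rfl

lemma act_mul {F : Type} [Field F] (σ τ : GK K) (φ : Emb K F) : act (σ * τ) φ = act σ (act τ φ) :=
  rfl

lemma act_one {F : Type} [Field F] (φ : Emb K F) : act (1 : GK K) φ = φ := rfl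

/-- The elements which fix all embeddings of `F`. -/
def fixE (K F : Type) [Field K] [NumberField K] [Field F] : Subgroup (GK K) where
  carrier := {σ | ∀ φ : Emb K F, act σ φ = φ}
  mul_mem' := by
    intro σ τ h1 h2 φ
    rw [act_mul, h2, h1]
  one_mem' := fun φ => rfl
  inv_mem' := by
    intro σ h φ
    have h1 := congrArg (act σ⁻¹) (h φ)
    rw [← act_mul, inv_mul_cancel] at h1
    exact h1.symm

lemma fixE_open (F : Type) [Field F] [NumberField F] :
    IsOpen ((fixE K F : Subgroup (GK K)) : Set (GK K)) := by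
  classical
  let B := Module.finBasis ℚ F
  let W : Subgroup (GK K) := ⨅ φ : Emb K F, ⨅ j, MulAction.stabilizer (GK K) (φ (B j))
  have hW : IsOpen (W : Set (GK K)) := by
    have e : (W : Set (GK K)) = ⋂ φ : Emb K F, ⋂ j,
        ((MulAction.stabilizer (GK K) (φ (B j)) : Subgroup (GK K)) : Set (GK K)) := by
      simp only [W, Subgroup.coe_iInf]
    rw [e]
    exact isOpen_iInter_of_finite fun φ => isOpen_iInter_of_finite fun j => stab_open _
  refine Subgroup.isOpen_mono (H₁ := W) ?_ hW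
  intro σ hσ φ
  have h1 : ∀ j, σ (φ (B j)) = φ (B j) := by
    intro j
    have h2 := hσ
    simp only [W, Subgroup.mem_iInf] at h2
    exact h2 φ j
  have h3 : ((act σ φ).toRatAlgHom : F →ₐ[ℚ] AlgebraicClosure K).toLinearMap =
      (φ.toRatAlgHom : F →ₐ[ℚ] AlgebraicClosure K).toLinearMap := by
    refine B.ext fun j => ?_
    exact h1 j
  ext x
  exact LinearMap.congr_fun h3 x

lemma fixE_normal (F : Type) [Field F] : (fixE K F : Subgroup (GK K)).Normal := by
  refine ⟨fun σ hσ τ φ => ?_⟩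
  rw [act_mul, act_mul, hσ, ← act_mul, mul_inv_cancel, act_one]

end

section

variable {K : Type} [Field K] [NumberField K] {ℓ : ℕ} [hp : Fact ℓ.Prime] {ι : Type} [Fintype ι]
  (T : ι → System K ℓ) {b : ι → ℕ} (L : ∀ i, Lattice (T i).R (b i))

/-- An open normal subgroup under which everything is invariant. -/
noncomputable def Ve : OpenNormalSubgroup (GK K) where
  toSubgroup := (Ue L).toSubgroup ⊓ ⨅ i, fixE K (T i).F
  isOpen' := by
    have e : (((Ue L).toSubgroup ⊓ ⨅ i, fixE K (T i).F : Subgroup (GK K)) : Set (GK K)) =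
        ((Ue L).toSubgroup : Set (GK K)) ∩ ⋂ i, ((fixE K (T i).F : Subgroup (GK K)) : Set (GK K)) := by
      rw [Subgroup.coe_inf, Subgroup.coe_iInf]
    change IsOpen (((Ue L).toSubgroup ⊓ ⨅ i, fixE K (T i).F : Subgroup (GK K)) : Set (GK K))
    rw [e]
    exact (Ue L).isOpen'.inter (isOpen_iInter_of_finite fun i => fixE_open _)
  isNormal' := by
    haveI := (Ue L).isNormal'
    haveI : ∀ i, (fixE K (T i).F : Subgroup (GK K)).Normal := fun i => fixE_normal _
    haveI : (⨅ i, fixE K (T i).F : Subgroup (GK K)).Normal := Subgroup.normal_iInf_normal this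
    exact Subgroup.normal_inf_normal _ _

variable {T L}

lemma Ve_ker {u : GK K} (hu : u ∈ Ve T L) : u ∈ Ue L := hu.1

lemma Ve_fix {u : GK K} (hu : u ∈ Ve T L) (i : ι) (φ : Emb K (T i).F) : act u φ = φ := by
  have h := hu.2
  have h2 := Subgroup.mem_iInf.1 h i
  exact h2 φ

lemma large_conj {m : ι → ℕ} {σ : GK K} (hσ : σ ∈ Large T L m) (τ : GK K) :
    τ * σ * τ⁻¹ ∈ Large T L m := by
  refine ⟨conn_conj hσ.1 τ, fun i X hX hS => ?_⟩
  let Y : Set (Emb K (T i).F) := (act τ⁻¹) '' X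
  have hinj : Function.Injective (act τ⁻¹ : Emb K (T i).F → Emb K (T i).F) := by
    intro φ ψ h
    have h1 := congrArg (act τ) h
    rwa [← act_mul, ← act_mul, mul_inv_cancel, act_one, act_one] at h1
  have hY : (T i).Stable σ Y := by
    rintro _ ⟨φ, hφ, rfl⟩
    obtain ⟨h1, h2⟩ := hS φ hφ
    refine ⟨⟨_, h1, ?_⟩, ⟨_, h2, ?_⟩⟩
    · change act τ⁻¹ (act (τ * σ * τ⁻¹) φ) = act σ (act τ⁻¹ φ)
      rw [← act_mul, ← act_mul]
      congr 1
      group
    · rfl
  have h3 := hσ.2 i Y (hX.image _) hY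
  rwa [Set.ncard_image_of_injective _ hinj] at h3

lemma large_right {m : ι → ℕ} (hℓ : ℓ ≠ 2) {σ : GK K} (hσ : σ ∈ Large T L m) {u : GK K}
    (hu : u ∈ Ve T L) : σ * u ∈ Large T L m := by
  refine ⟨conn_mul hσ.1 (conn_of_ker L hℓ (Ve_ker hu)), fun i X hX hS => ?_⟩
  refine hσ.2 i X hX fun φ hφ => ⟨?_, (hS φ hφ).2⟩
  have h1 := (hS φ hφ).1
  have h2 : act (σ * u) φ = act σ φ := by rw [act_mul, Ve_fix hu i φ]
  change act σ φ ∈ X
  rw [← h2]
  exact h1

variable (T L)

/-- Outside of a set of places of density zero at least `m i` embeddings are ordinary for all `i`, if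
some Frobenius element is in `Large T L m`. -/
theorem main_zero (hℓ : ℓ ≠ 2) (m : ι → ℕ) :
    Tendsto (dens fun v : HeightOneSpectrum (𝓞 K) => (∃ σ ∈ Large T L m, IsFrob v σ) ∧
      ¬ ∀ i, m i ≤ (T i).num v) atTop (𝓝 0) := by
  classical
  set B : ℤ := ∑ i, ((T i).n * Module.finrank ℚ (T i).F : ℕ) with hB
  let s : Finset (ι × ℤ) := Finset.univ ×ˢ Finset.Icc (-B) B
  have hU : ∀ F ∈ Algebra.adjoin (PadicAlgCl ℓ) (Te L), ∀ V : Subgroup (GK K),
      IsOpen (V : Set (GK K)) → (∀ x ∈ V, F x = 0) → ∀ u ∈ Ve T L, F u = 0 := by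
    intro F hF V hV h u hu
    exact conn_of_ker L hℓ (Ve_ker hu) F hF V hV h
  let Z : HeightOneSpectrum (𝓞 K) → Prop := fun v =>
    ¬ (Ideal.absNorm v.asIdeal).Prime ∨ v ∈ ⋃ i, (T i).bad
  have hZ : Tendsto (dens Z) atTop (𝓝 0) := by
    have h2 := (dens_not_prime (K := K)).add
      (dens_finite (fun v => v ∈ ⋃ i, (T i).bad) (Set.finite_iUnion fun i => (T i).finite))
    rw [add_zero] at h2
    exact squeeze_zero (fun N => dens_nonneg _ _) (fun N => dens_or _ _ N) h2
  have h1 := dens_biUnion s (fun j (v : HeightOneSpectrum (𝓞 K)) =>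
    ∃ σ ∈ NZ (Ve T L) (Fe L j), Fe L j σ = 0 ∧ IsFrob v σ) (fun j hj =>
      dens_zero_coset (Te L) (Te_fg L) (Te_trans L) (Te_cont L) (Ve T L) hU (Fe L j) (Fe_mem L j)
        (Fe_conj L j))
  have h2 := h1.add hZ
  rw [add_zero] at h2
  refine squeeze_zero (fun N => dens_nonneg _ _) (fun N => ?_) h2
  refine le_trans (dens_mono (Q := fun v => (∃ j ∈ s, ∃ σ ∈ NZ (Ve T L) (Fe L j),
    Fe L j σ = 0 ∧ IsFrob v σ) ∨ Z v) ?_ N) (dens_or _ _ N)
  rintro v ⟨⟨σ, hσL, hσ⟩, hno⟩
  by_contra hcon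
  rw [not_or] at hcon
  obtain ⟨hcon1, hcon2⟩ := hcon
  apply hno
  have hv' : (Ideal.absNorm v.asIdeal).Prime ∧ v ∉ ⋃ i, (T i).bad := by
    constructor
    · by_contra h
      exact hcon2 (Or.inl h)
    · intro h
      exact hcon2 (Or.inr h)
  obtain ⟨hprime, hbad⟩ := hv'
  rw [Set.mem_iUnion, not_exists] at hbad
  intro i
  obtain ⟨ρ, hρ⟩ := frob_place ((T i).place v (hbad i)).w hσ
  have hL' := large_conj hσL ρ
  have hst := stable (T i) (hbad i) hρ
  rcases Set.eq_empty_or_nonempty {φ | (T i).OrdAt v φ} with hemp | hne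
  · exfalso
    have hall : ∀ φ : Emb K (T i).F, ((T i).place v (hbad i)).s φ ≠ hsl (T i).n := by
      intro φ h
      have : φ ∈ {φ | (T i).OrdAt v φ} := ⟨hbad i, h⟩
      rw [hemp] at this
      exact this
    obtain ⟨k, hk, ht⟩ := trace_k (T i) (hbad i) hprime hall hσ
    refine hcon1 ⟨(i, k), ?_, σ, nz_of_conn L hℓ i k (T i).nonconst (Ve T L) hσL.1,
      (Fe_zero_iff L i k σ).2 ht, hσ⟩
    simp only [s, Finset.mem_product, Finset.mem_univ, true_and, Finset.mem_Icc]
    have hbi : (T i).n * Module.finrank ℚ (T i).F ≤ ∑ i, ((T i).n * Module.finrank ℚ (T i).F) :=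
      Finset.single_le_sum (f := fun i => (T i).n * Module.finrank ℚ (T i).F)
        (fun _ _ => Nat.zero_le _) (Finset.mem_univ i)
    have h3 : |k| ≤ B := hk.trans (by rw [hB]; exact_mod_cast hbi)
    exact abs_le.1 h3
  · exact hL'.2 i _ hne hst

/-- The places with a Frobenius element in `Large T L m` have a natural density. -/
theorem main_dens (hℓ : ℓ ≠ 2) (m : ι → ℕ) :
    Tendsto (dens fun v : HeightOneSpectrum (𝓞 K) => ∃ σ ∈ Large T L m, IsFrob v σ) atTop
      (𝓝 ((((QuotientGroup.mk : GK K → GK K ⧸ (Ve T L).toSubgroup) '' Large T L m).ncard : ℝ) /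
        (Nat.card (GK K ⧸ (Ve T L).toSubgroup) : ℝ))) := by
  haveI := (Ve T L).isNormal'
  exact chebK K (Ve T L).toSubgroup (Ve T L).isOpen' _ (fun σ hσ τ => large_conj hσ τ)
    (fun σ hσ u hu => large_right hℓ hσ hu)

theorem main_rat (hℓ : ℓ ≠ 2) (m : ι → ℕ) : ∃ δ : ℚ,
    Tendsto (dens fun v : HeightOneSpectrum (𝓞 K) => ∃ σ ∈ Large T L m, IsFrob v σ) atTop
      (𝓝 (δ : ℝ)) ∧ ((Large T L m).Nonempty → 0 < δ) := by
  refine ⟨(((QuotientGroup.mk : GK K → GK K ⧸ (Ve T L).toSubgroup) '' Large T L m).ncard : ℚ) /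
        (Nat.card (GK K ⧸ (Ve T L).toSubgroup) : ℚ), ?_, ?_⟩
  · have h := main_dens T L hℓ m
    have e : (((((QuotientGroup.mk : GK K → GK K ⧸ (Ve T L).toSubgroup) '' Large T L m).ncard : ℚ) /
        (Nat.card (GK K ⧸ (Ve T L).toSubgroup) : ℚ) : ℚ) : ℝ) =
        (((QuotientGroup.mk : GK K → GK K ⧸ (Ve T L).toSubgroup) '' Large T L m).ncard : ℝ) /
        (Nat.card (GK K ⧸ (Ve T L).toSubgroup) : ℝ) := by push_cast; rfl
    rw [e]
    exact h
  · intro hne
    haveI : Finite (GK K ⧸ (Ve T L).toSubgroup) :=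
      Subgroup.quotient_finite_of_isOpen _ (Ve T L).isOpen'
    have h1 : 0 < ((QuotientGroup.mk : GK K → GK K ⧸ (Ve T L).toSubgroup) '' Large T L m).ncard :=
      (Set.ncard_pos (Set.toFinite _)).2 (hne.image _)
    have h2 : 0 < Nat.card (GK K ⧸ (Ve T L).toSubgroup) := Nat.card_pos
    positivity

lemma ord_of_num (i : ι) (v : HeightOneSpectrum (𝓞 K)) (h : deg T i ≤ (T i).num v) :
    (T i).Ord v := by
  have h1 : Fintype.card (Emb K (T i).F) = deg T i := NumberField.Embeddings.card _ _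
  have h2 : {φ | (T i).OrdAt v φ} = Set.univ := by
    refine Set.eq_of_subset_of_ncard_le (Set.subset_univ _) ?_ (Set.toFinite _)
    rw [Set.ncard_univ, Nat.card_eq_fintype_card, h1]
    exact h
  intro φ
  have : φ ∈ {φ | (T i).OrdAt v φ} := by rw [h2]; exact Set.mem_univ _
  exact this

theorem main_pos (hℓ : ℓ ≠ 2) (hne : (Large T L (deg T)).Nonempty) :
    0 < lowerDensity fun v => ∀ i, (T i).Ord v := by
  obtain ⟨δ, hδ, hpos⟩ := main_rat T L hℓ (deg T)
  have hδ0 : (0 : ℝ) < (δ : ℝ) := by exact_mod_cast hpos hne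
  have h0 := main_zero T L hℓ (deg T)
  refine lowerDensity_pos _ ((δ : ℝ) / 2) (by positivity) ?_
  filter_upwards [hδ.eventually (lt_mem_nhds (show (δ : ℝ) * (3 / 4) < δ by linarith)),
    h0.eventually (gt_mem_nhds (show (0 : ℝ) < δ / 4 by positivity))] with N h1 h2
  have hle : dens (fun v : HeightOneSpectrum (𝓞 K) => ∃ σ ∈ Large T L (deg T), IsFrob v σ) N ≤
      dens (fun v => ∀ i, (T i).Ord v) N +
      dens (fun v : HeightOneSpectrum (𝓞 K) => (∃ σ ∈ Large T L (deg T), IsFrob v σ) ∧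
      ¬ ∀ i, deg T i ≤ (T i).num v) N := by
    refine le_trans (dens_mono (Q := fun v => _ ∨ _) ?_ N) (dens_or _ _ N)
    intro v hv
    by_cases h : ∀ i, deg T i ≤ (T i).num v
    · exact Or.inl fun i => ord_of_num T i v (h i)
    · exact Or.inr ⟨hv, h⟩
  linarith

end

end Pool.Agent.V7H31.IP
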