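import Pool.Agent.V7H31.IP.Defs
import Pool.Agent.V7H31.OD.Gen
import Pool.Agent.V7H31.OD.Pad
import Pool.Agent.V7H31.OD.Fam

/-!
# The connected monodromy subgroup
-/

set_option autoImplicit false
set_option linter.all false

namespace Pool.Agent.V7H31.IP

open Module Polynomial NumberField IsDedekindDomain Filter Topology
open Pool.Agent.W401.Cheb Pool.Agent.W528.Ord Pool.Agent.N184.HK Pool.Agent.V7H31.OD

section

variable {K : Type} [Field K] [NumberField K] {ℓ : ℕ} [hp : Fact ℓ.Prime] {ι : Type} [Fintype ι]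
  {R : ι → GalRep K ℓ} {b : ι → ℕ} (L : ∀ i, Lattice (R i) (b i))

/-- the matrix entries -/
def Te : Set (GK K → PadicAlgCl ℓ) :=
  {f | ∃ i a c, f = fun σ => algebraMap ℤ_[ℓ] (PadicAlgCl ℓ) ((L i).mat σ a c)}

lemma Te_fg : (Submodule.span (PadicAlgCl ℓ) (Te L)).FG := by
  refine Submodule.fg_span ?_
  have h1 : Te L ⊆ ⋃ i, ⋃ a, ⋃ c, {fun σ => algebraMap ℤ_[ℓ] (PadicAlgCl ℓ) ((L i).mat σ a c)} := by
    rintro F ⟨i, a, c, rfl⟩
    exact Set.mem_iUnion.2 ⟨i, Set.mem_iUnion.2 ⟨a, Set.mem_iUnion.2 ⟨c, rfl⟩⟩⟩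
  refine Set.Finite.subset ?_ h1
  exact Set.finite_iUnion fun a => Set.finite_iUnion fun i => Set.finite_iUnion fun j =>
    Set.finite_singleton _

lemma Te_trans (g : GK K) (F : GK K → PadicAlgCl ℓ) (hF : F ∈ Te L) :
    (fun x => F (g * x)) ∈ Algebra.adjoin (PadicAlgCl ℓ) (Te L) := by
  obtain ⟨i, a, c, rfl⟩ := hF
  have e : (fun x => (fun σ => algebraMap ℤ_[ℓ] (PadicAlgCl ℓ) ((L i).mat σ a c)) (g * x)) =
      ∑ k, aM ℓ ((L i).mat g a k) • fun x => aM ℓ ((L i).mat x k c) := by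
    funext x
    rw [Finset.sum_apply]
    change aM ℓ ((L i).mat (g * x) a c) = _
    rw [map_mul, Matrix.mul_apply, map_sum]
    refine Finset.sum_congr rfl fun k _ => ?_
    rw [map_mul, Pi.smul_apply, smul_eq_mul]
  rw [e]
  refine Subalgebra.sum_mem _ fun k _ => ?_
  have h5 : (fun x => aM ℓ ((L i).mat x k c)) ∈ Algebra.adjoin (PadicAlgCl ℓ) (Te L) :=
    Algebra.subset_adjoin ⟨i, k, c, rfl⟩
  exact Subalgebra.smul_mem _ h5 _

lemma Te_trans' (g : GK K) (F : GK K → PadicAlgCl ℓ) (hF : F ∈ Te L) :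
    (fun x => F (x * g)) ∈ Algebra.adjoin (PadicAlgCl ℓ) (Te L) := by
  obtain ⟨i, a, c, rfl⟩ := hF
  have e : (fun x => (fun σ => algebraMap ℤ_[ℓ] (PadicAlgCl ℓ) ((L i).mat σ a c)) (x * g)) =
      ∑ k, aM ℓ ((L i).mat g k c) • fun x => aM ℓ ((L i).mat x a k) := by
    funext x
    rw [Finset.sum_apply]
    change aM ℓ ((L i).mat (x * g) a c) = _
    rw [map_mul, Matrix.mul_apply, map_sum]
    refine Finset.sum_congr rfl fun k _ => ?_
    rw [map_mul, Pi.smul_apply, smul_eq_mul, mul_comm]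
  rw [e]
  refine Subalgebra.sum_mem _ fun k _ => ?_
  have h5 : (fun x => aM ℓ ((L i).mat x a k)) ∈ Algebra.adjoin (PadicAlgCl ℓ) (Te L) :=
    Algebra.subset_adjoin ⟨i, a, k, rfl⟩
  exact Subalgebra.smul_mem _ h5 _

lemma poly_left (g : GK K) {F : GK K → PadicAlgCl ℓ} (hF : F ∈ PolyFun L) :
    (fun x => F (g * x)) ∈ PolyFun L := by
  refine Algebra.adjoin_induction (p := fun F _ => (fun x => F (g * x)) ∈ PolyFun L) ?_ ?_ ?_ ?_ hF
  · intro F hF
    exact Te_trans L g F hF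
  · intro r
    exact Subalgebra.algebraMap_mem _ r
  · intro F G _ _ h1 h2
    exact Subalgebra.add_mem _ h1 h2
  · intro F G _ _ h1 h2
    exact Subalgebra.mul_mem _ h1 h2

lemma poly_right (g : GK K) {F : GK K → PadicAlgCl ℓ} (hF : F ∈ PolyFun L) :
    (fun x => F (x * g)) ∈ PolyFun L := by
  refine Algebra.adjoin_induction (p := fun F _ => (fun x => F (x * g)) ∈ PolyFun L) ?_ ?_ ?_ ?_ hF
  · intro F hF
    exact Te_trans' L g F hF
  · intro r
    exact Subalgebra.algebraMap_mem _ r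
  · intro F G _ _ h1 h2
    exact Subalgebra.add_mem _ h1 h2
  · intro F G _ _ h1 h2
    exact Subalgebra.mul_mem _ h1 h2

lemma Te_cont (F : GK K → PadicAlgCl ℓ) (hF : F ∈ Te L) : Continuous F := by
  obtain ⟨i, a, c, rfl⟩ := hF
  exact aM_cont.comp ((L i).cont a c)

/-- the reduction modulo `ℓ` -/
noncomputable def Re : GK K →* ∀ i, GL (Fin (b i)) (ZMod ℓ) :=
  Pi.monoidHom fun i => (L i).red

lemma mem_ker (σ : GK K) : σ ∈ (Re L).ker ↔
    ∀ i a c, PadicInt.toZMod ((L i).mat σ a c) = (1 : Matrix (Fin (b i)) (Fin (b i)) (ZMod ℓ)) a c := by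
  rw [MonoidHom.mem_ker]
  constructor
  · intro h i a c
    have h1 := congrFun h i
    have h2 := congrArg (fun g : GL (Fin (b i)) (ZMod ℓ) => (g : Matrix _ _ (ZMod ℓ)) a c) h1
    exact h2
  · intro h
    funext i
    refine Units.ext ?_
    ext a c
    exact h i a c

/-- the kernel of the reduction modulo `ℓ` -/
noncomputable def Ue : OpenNormalSubgroup (GK K) where
  toSubgroup := (Re L).ker
  isOpen' := by
    have e : ((Re L).ker : Set (GK K)) = ⋂ i, ⋂ a, ⋂ c, {σ | PadicInt.toZMod ((L i).mat σ a c) =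
        (1 : Matrix (Fin (b i)) (Fin (b i)) (ZMod ℓ)) a c} := by
      ext σ
      simp only [Set.mem_iInter, Set.mem_setOf_eq]
      exact mem_ker L σ
    change IsOpen ((Re L).ker : Set (GK K))
    rw [e]
    exact isOpen_iInter_of_finite fun i => isOpen_iInter_of_finite fun a =>
      isOpen_iInter_of_finite fun c => (open_fibre _).preimage ((L i).cont a c)
  isNormal' := inferInstanceAs ((Re L).ker.Normal)

lemma mem_Ue (σ : GK K) : σ ∈ Ue L ↔ ∀ i, (L i).red σ = 1 := by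
  change Re L σ = 1 ↔ _
  rw [funext_iff]
  rfl

lemma Ue_cong (u : GK K) (hu : u ∈ (Re L).ker) (i : ι) :
    ∃ Y, (L i).mat u = 1 + (ℓ : ℤ_[ℓ]) • Y := by
  have h1 : ∀ a c, ∃ y : ℤ_[ℓ], (L i).mat u a c - (1 : Matrix _ _ ℤ_[ℓ]) a c = ℓ * y := by
    intro a c
    have h2 := (mem_ker L u).1 hu i a c
    have h3 : (L i).mat u a c - (1 : Matrix _ _ ℤ_[ℓ]) a c ∈
        RingHom.ker (PadicInt.toZMod (p := ℓ)) := by
      rw [RingHom.mem_ker, map_sub, h2, sub_eq_zero]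
      by_cases hac : a = c
      · subst hac; simp
      · rw [Matrix.one_apply_ne hac, Matrix.one_apply_ne hac, map_zero]
    rw [PadicInt.ker_toZMod, PadicInt.maximalIdeal_eq_span_p, Ideal.mem_span_singleton] at h3
    exact h3
  choose Y hY using h1
  refine ⟨Matrix.of Y, ?_⟩
  ext a c
  rw [Matrix.add_apply, Matrix.smul_apply, Matrix.of_apply, smul_eq_mul, ← hY a c]
  ring

lemma conn_of_ker (hℓ : ℓ ≠ 2) {u : GK K} (hu : u ∈ Ue L) : Conn L u := by
  intro F hF V hV h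
  haveI : Finite (GK K ⧸ V) := Subgroup.quotient_finite_of_isOpen _ hV
  have hVi : V.index ≠ 0 := (Subgroup.finiteIndex_of_finite_quotient (H := V)).index_ne_zero
  exact conn hℓ b (fun i => (L i).mat) (Re L).ker (fun u hu i => Ue_cong L u hu i) F hF V
    hVi h u hu

variable {L}

lemma conn_mul {γ δ : GK K} (hγ : Conn L γ) (hδ : Conn L δ) : Conn L (γ * δ) := by
  intro F hF V hV h
  have h1 : ∀ x ∈ V, F (x * δ) = 0 := by
    intro x hx
    exact hδ (fun y => F (x * y)) (poly_left L x hF) V hV fun y hy => h _ (mul_mem hx hy)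
  exact hγ (fun y => F (y * δ)) (poly_right L δ hF) V hV h1

lemma conn_one : Conn L 1 := fun F _ V _ h => h 1 (one_mem V)

lemma conn_conj {γ : GK K} (hγ : Conn L γ) (τ : GK K) : Conn L (τ * γ * τ⁻¹) := by
  intro F hF V hV h
  have h1 := poly_right L τ⁻¹ hF
  have h2 := poly_left L τ h1
  let W : Subgroup (GK K) := V.comap (MulAut.conj τ).toMonoidHom
  have hW : IsOpen (W : Set (GK K)) := by
    have : (W : Set (GK K)) = (fun x => τ * x * τ⁻¹) ⁻¹' (V : Set (GK K)) := rfl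
    rw [this]
    exact hV.preimage ((continuous_const.mul continuous_id).mul continuous_const)
  have h3 := hγ _ h2 W hW fun x hx => h _ hx
  exact h3

lemma conn_inv (hℓ : ℓ ≠ 2) {γ : GK K} (hγ : Conn L γ) : Conn L γ⁻¹ := by
  haveI : Finite (GK K ⧸ (Ue L).toSubgroup) := Subgroup.quotient_finite_of_isOpen _ (Ue L).isOpen'
  have hVi : (Ue L).toSubgroup.index ≠ 0 :=
    (Subgroup.finiteIndex_of_finite_quotient (H := (Ue L).toSubgroup)).index_ne_zero
  obtain ⟨m, hm0, -, hm⟩ := Subgroup.exists_pow_mem_of_index_ne_zero hVi γ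
  have h1 : ∀ k : ℕ, Conn L (γ ^ k) := by
    intro k
    induction k with
    | zero => rw [pow_zero]; exact conn_one
    | succ k ih => rw [pow_succ]; exact conn_mul ih hγ
  have h2 : Conn L (γ ^ m)⁻¹ := conn_of_ker L hℓ ((Ue L).toSubgroup.inv_mem hm)
  have h3 := conn_mul (h1 (m - 1)) h2
  have e : γ ^ (m - 1) * (γ ^ m)⁻¹ = γ⁻¹ := by
    obtain ⟨k, rfl⟩ := Nat.exists_eq_succ_of_ne_zero hm0.ne'
    rw [Nat.succ_sub_one, pow_succ']
    group
  rwa [e] at h3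

/-- The connected monodromy subgroup. -/
lemma conn_subgroup (hℓ : ℓ ≠ 2) : ∃ H : Subgroup (GK K), H.Normal ∧ IsOpen (H : Set (GK K)) ∧
    (∀ γ, γ ∈ H ↔ Conn L γ) ∧ ∀ γ, (∀ i, (L i).red γ = 1) → γ ∈ H := by
  let H : Subgroup (GK K) :=
    { carrier := {γ | Conn L γ}
      mul_mem' := fun h1 h2 => conn_mul h1 h2
      one_mem' := conn_one
      inv_mem' := fun h => conn_inv hℓ h }
  refine ⟨H, ⟨fun γ hγ τ => conn_conj hγ τ⟩, ?_, fun γ => Iff.rfl, fun γ hγ =>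
    conn_of_ker L hℓ ((mem_Ue L γ).2 hγ)⟩
  refine Subgroup.isOpen_mono (H₁ := (Ue L).toSubgroup) ?_ (Ue L).isOpen'
  intro u hu
  exact conn_of_ker L hℓ hu

variable (L)

/-- the trace minus an integer -/
noncomputable def Fe (j : ι × ℤ) (σ : GK K) : PadicAlgCl ℓ :=
  aM ℓ ((L j.1).mat σ).trace - (j.2 : PadicAlgCl ℓ)

lemma Fe_mem (j : ι × ℤ) : Fe L j ∈ Algebra.adjoin (PadicAlgCl ℓ) (Te L) := by
  have e : Fe L j = (∑ a, fun x => aM ℓ ((L j.1).mat x a a)) -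
      algebraMap (PadicAlgCl ℓ) (GK K → PadicAlgCl ℓ) (j.2 : PadicAlgCl ℓ) := by
    funext x
    rw [Pi.sub_apply, Finset.sum_apply]
    change aM ℓ ((L j.1).mat x).trace - _ = _
    rw [Matrix.trace, map_sum]
    rfl
  rw [e]
  refine Subalgebra.sub_mem _ (Subalgebra.sum_mem _ fun a _ => ?_) (Subalgebra.algebraMap_mem _ _)
  exact Algebra.subset_adjoin ⟨j.1, a, a, rfl⟩

lemma Fe_conj (j : ι × ℤ) (σ τ : GK K) : Fe L j (τ * σ * τ⁻¹) = Fe L j σ := by
  unfold Fe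
  rw [map_mul, Matrix.trace_mul_comm, ← map_mul, inv_mul_cancel_left]

lemma tr_mat (i : ι) (σ : GK K) : (R i).tr σ = (((L i).mat σ).trace : ℚ_[ℓ]) := by
  rw [GalRep.tr, LinearMap.trace_eq_matrix_trace ℚ_[ℓ] (L i).basis, Matrix.trace, Matrix.trace]
  have e : (((∑ a, ((L i).mat σ).diag a : ℤ_[ℓ])) : ℚ_[ℓ]) =
      ∑ a, ((((L i).mat σ).diag a : ℤ_[ℓ]) : ℚ_[ℓ]) :=
    map_sum (PadicInt.Coe.ringHom (p := ℓ)) _ _
  rw [e]
  exact Finset.sum_congr rfl fun a _ => (L i).eq σ a a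

lemma Fe_zero_iff (i : ι) (k : ℤ) (σ : GK K) : Fe L (i, k) σ = 0 ↔
    (R i).tr σ = (k : ℚ_[ℓ]) := by
  rw [tr_mat L, Fe, sub_eq_zero]
  have e : (k : PadicAlgCl ℓ) = algebraMap ℚ_[ℓ] (PadicAlgCl ℓ) (k : ℚ_[ℓ]) := by simp
  rw [e]
  change algebraMap ℚ_[ℓ] (PadicAlgCl ℓ) (((L i).mat σ).trace : ℚ_[ℓ]) = _ ↔ _
  exact (algebraMap ℚ_[ℓ] (PadicAlgCl ℓ)).injective.eq_iff

/-- On the cosets in the connected monodromy subgroup the trace is not constant. -/
lemma nz_of_conn (hℓ : ℓ ≠ 2) (i : ι) (k : ℤ)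
    (hnc : ∀ O : Set (GK K), IsOpen O → 1 ∈ O → ∃ σ ∈ O, (R i).tr σ ≠ (R i).tr 1)
    (V : OpenNormalSubgroup (GK K)) {γ : GK K} (hγ : Conn L γ) : γ ∈ NZ V (Fe L (i, k)) := by
  by_contra hcon
  have h0 : ∀ u ∈ V.toSubgroup, Fe L (i, k) (γ * u) = 0 := by
    intro u hu
    by_contra hne
    exact hcon ⟨u, hu, hne⟩
  have h1 : ∀ u ∈ (Ue L).toSubgroup, Fe L (i, k) u = 0 := by
    intro u hu
    have h2 : Conn L (γ⁻¹ * u) := conn_mul (conn_inv hℓ hγ) (conn_of_ker L hℓ hu)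
    have h3 := h2 (fun x => Fe L (i, k) (γ * x)) (poly_left L γ (Fe_mem L (i, k))) V.toSubgroup
      V.isOpen' h0
    rwa [mul_inv_cancel_left] at h3
  obtain ⟨σ, hσ, hne⟩ := hnc ((Ue L).toSubgroup : Set (GK K)) (Ue L).isOpen' (one_mem _)
  apply hne
  rw [(Fe_zero_iff L i k σ).1 (h1 σ hσ), (Fe_zero_iff L i k 1).1 (h1 1 (one_mem _))]

end

end Pool.Agent.V7H31.IP
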