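import Pool.Agent.V7H31.OD.Defs

/-!
# Motives of K3 type with coefficients in a number field: definitions
-/

set_option autoImplicit false

namespace Pool.Agent.V7H31.IP

open NumberField IsDedekindDomain Polynomial
open Pool.Agent.W401.Cheb Pool.Agent.N184.HK Pool.Agent.V7H31.OD

/-- The embeddings of `F` into the algebraic closure of `K`. -/
abbrev Emb (K F : Type) [Field K] [Field F] : Type := F →+* AlgebraicClosure K

/-- The Hodge slopes `0, 1, …, 1, 2`. -/
def hsl (n : ℕ) (j : Fin n) : ℚ := if (j : ℕ) = 0 then 0 else if (j : ℕ) + 1 = n then 2 else 1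

/-- The polynomial `φ(P)`, for an embedding `φ` of `F`. -/
noncomputable def img {F C : Type} [Field F] [Field C] (φ : F →+* C) (P : (𝓞 F)[X]) : C[X] :=
  P.map (φ.comp (algebraMap (𝓞 F) F))

section

variable {K : Type} [Field K] [NumberField K]

/-- A valuation of the algebraic closure of `K` above the place `v`, with the value `1` at the norm of
`v`. -/
structure PlaceAbove (v : HeightOneSpectrum (𝓞 K)) where
  val : AddValuation (AlgebraicClosure K) (WithTop ℚ)
  above : ∀ x ∈ v.asIdeal, 0 < val (algebraMap (𝓞 K) (AlgebraicClosure K) x)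
  norm : val (Ideal.absNorm v.asIdeal : AlgebraicClosure K) = 1

/-- The slopes of a polynomial `P` of degree `n` with coefficients in `F`: for each embedding `φ` of `F`
the valuations of the roots of `φ(P)` are `s φ 0 ≤ … ≤ s φ (n - 1)`. They lie above the Hodge slopes
`0, 1, …, 1, 2` (Mazur) and they are symmetric. -/
structure Slopes (v : HeightOneSpectrum (𝓞 K)) (F : Type) [Field F] (n : ℕ) (P : (𝓞 F)[X]) where
  w : PlaceAbove v
  s : Emb K F → Fin n → ℚ
  roots : ∀ φ, (img φ P).roots.map (fun z => w.val z) =
    Finset.univ.val.map (fun j => ((s φ j : ℚ) : WithTop ℚ))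
  mono : ∀ φ, Monotone (s φ)
  above : ∀ φ, ∀ k : ℕ, ∑ j ∈ Finset.univ.filter (fun j : Fin n => (j : ℕ) < k), hsl n j ≤
    ∑ j ∈ Finset.univ.filter (fun j : Fin n => (j : ℕ) < k), s φ j
  dual : ∀ φ j, s φ j + s φ (Fin.rev j) = 2

/-- A motive `T` of weight two over `K` with coefficients in a number field `F`, of rank `n` over `F`,
all whose Hodge numbers are `1, n - 2, 1` (one triple for each embedding of `F`): `T` is of K3 type over
`F`. Examples: the transcendental part of `H²` of a surface on which a field `F` of degree `p_g` acts in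
this way (Hilbert modular surfaces, `F` the field of a newform); `Λ²_F H¹(A)` for an abelian variety of
dimension `2 [F : ℚ]` with multiplication by a totally real field `F`, or for an abelian variety of
dimension `2 [F : ℚ]` with multiplication by a CM field `F` of signature `(2, 2)` at all places; `Sym²_F
H¹(A)` for an abelian variety of dimension `[F : ℚ]` with multiplication by a totally real field `F`.

* `R` is the `ℓ`-adic realisation of `T(1)`, as a representation over `ℚ_ℓ`. Its trace is not constant
  near the identity, as the Hodge-Tate weights are not all zero (Sen);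
* `bad` is a finite set of places; it contains the places of bad reduction, the places above `ℓ` and the
  places above the prime numbers which are ramified in `F` (`rad`);
* `poly v` is the characteristic polynomial over `F` of the Frobenius at `v`, with integral
  coefficients; all its conjugates have roots of absolute value `N v` (Deligne);
* `place v` gives the slopes of the crystalline realisation, for each embedding of `F`, at a place of
  the algebraic closure above `v`;
* `c` is the identity if `F` is totally real and the complex conjugation if `F` is a CM field; it is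
  the adjunction of a polarization, so `φ` and `φ ∘ c` have the same slopes. -/
structure System (K : Type) [Field K] [NumberField K] (ℓ : ℕ) [Fact ℓ.Prime] where
  F : Type
  [fld : Field F]
  [nf : NumberField F]
  n : ℕ
  three : 3 ≤ n
  R : GalRep K ℓ
  nonconst : ∀ O : Set (GK K), IsOpen O → 1 ∈ O → ∃ σ ∈ O, R.tr σ ≠ R.tr 1
  bad : Set (HeightOneSpectrum (𝓞 K))
  finite : bad.Finite
  rad : ∀ v, v ∉ bad → (Ideal.absNorm v.asIdeal).Prime →
    (Ideal.span {(Ideal.absNorm v.asIdeal : 𝓞 F)}).IsRadical
  poly : HeightOneSpectrum (𝓞 K) → (𝓞 F)[X]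
  monic : ∀ v, v ∉ bad → (poly v).Monic
  poly_l : ∀ v, v ∉ bad → ∀ σ, IsFrob v σ →
    (R.cp (Ideal.absNorm v.asIdeal) σ).map (algebraMap ℚ_[ℓ] (PadicAlgCl ℓ)) =
      ∏ φ : F →+* PadicAlgCl ℓ, img φ (poly v)
  weil : ∀ v, v ∉ bad → ∀ φ : F →+* ℂ, ∀ z ∈ (img φ (poly v)).roots,
    ‖z‖ = Ideal.absNorm v.asIdeal
  place : ∀ v, v ∉ bad → Slopes v F n (poly v)
  c : F →+* F
  sym : ∀ v h φ, (place v h).s (φ.comp c) = (place v h).s φ

attribute [instance] System.fld System.nf

variable {ℓ : ℕ} [Fact ℓ.Prime]

/-- `T` has good reduction at `v`, which is ordinary at the embedding `φ` of `F`: the Newton polygon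
and the Hodge polygon of the part with the index `φ` are equal. -/
def System.OrdAt (T : System K ℓ) (v : HeightOneSpectrum (𝓞 K)) (φ : Emb K T.F) : Prop :=
  ∃ h : v ∉ T.bad, (T.place v h).s φ = hsl T.n

/-- The number of the embeddings at which `T` is ordinary; this is the dimension of the part of slope
zero. -/
noncomputable def System.num (T : System K ℓ) (v : HeightOneSpectrum (𝓞 K)) : ℕ :=
  {φ | T.OrdAt v φ}.ncard

/-- `T` has good ordinary reduction at `v`. -/
def System.Ord (T : System K ℓ) (v : HeightOneSpectrum (𝓞 K)) : Prop :=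
  ∀ φ, T.OrdAt v φ

/-- The set `X` of embeddings of `F` is stable under `σ` and under the complex conjugation. -/
def System.Stable (T : System K ℓ) (σ : GK K) (X : Set (Emb K T.F)) : Prop :=
  ∀ φ ∈ X, (σ : AlgebraicClosure K →ₐ[K] AlgebraicClosure K).toRingHom.comp φ ∈ X ∧
    φ.comp T.c ∈ X

end

section

variable {K : Type} [Field K] [NumberField K] {ℓ : ℕ} [Fact ℓ.Prime] {ι : Type} [Fintype ι]

/-- The algebra of the polynomial functions of the entries of the matrices by which the Galois group
acts on the lattices `L i`. -/
noncomputable def PolyFun {R : ι → GalRep K ℓ} {b : ι → ℕ} (L : ∀ i, Lattice (R i) (b i)) :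
    Subalgebra (PadicAlgCl ℓ) (GK K → PadicAlgCl ℓ) :=
  Algebra.adjoin (PadicAlgCl ℓ)
    {f | ∃ i a c, f = fun σ => algebraMap ℤ_[ℓ] (PadicAlgCl ℓ) ((L i).mat σ a c)}

/-- `γ` is in the connected monodromy subgroup: each polynomial function of the matrix entries which
vanishes on some open subgroup vanishes at `γ`. This means that the image of `γ` is in the identity
component of the Zariski closure of the image of the Galois group. -/
def Conn {R : ι → GalRep K ℓ} {b : ι → ℕ} (L : ∀ i, Lattice (R i) (b i)) (γ : GK K) : Prop :=
  ∀ f ∈ PolyFun L, ∀ V : Subgroup (GK K), IsOpen (V : Set (GK K)) → (∀ x ∈ V, f x = 0) → f γ = 0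

/-- The elements `σ` of the connected monodromy subgroup such that for each `i` all nonempty sets of
embeddings of `F_i` which are stable under `σ` and under the complex conjugation have at least `m i`
elements. -/
def Large (T : ι → System K ℓ) {b : ι → ℕ} (L : ∀ i, Lattice (T i).R (b i)) (m : ι → ℕ) :
    Set (GK K) :=
  {σ | Conn L σ ∧ ∀ i, ∀ X : Set (Emb K (T i).F), X.Nonempty → (T i).Stable σ X → m i ≤ X.ncard}

/-- The degree of the field `F_i`. -/
noncomputable def deg (T : ι → System K ℓ) (i : ι) : ℕ := Module.finrank ℚ (T i).F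

/-- The slopes of `H²` of a surface over `K` whose transcendental part is the sum of the `T i` and whose
Picard number is `ρ`, at a place of good reduction: `ρ` slopes one, and for each `i` and each embedding
of `F_i` the slopes of `T i`. -/
noncomputable def newton (T : ι → System K ℓ) (ρ : ℕ) (v : HeightOneSpectrum (𝓞 K))
    (h : ∀ i, v ∉ (T i).bad) : Multiset ℚ :=
  Multiset.replicate ρ 1 +
    ∑ i, ∑ φ : Emb K (T i).F, Finset.univ.val.map (((T i).place v (h i)).s φ)

/-- The Hodge slopes of `H²` of this surface: zero and two with the multiplicity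
`p_g = ∑ [F_i : ℚ]`, and one with the multiplicity `h^{1,1} = ρ + ∑ (n_i - 2) [F_i : ℚ]`. -/
noncomputable def hodge (T : ι → System K ℓ) (ρ : ℕ) : Multiset ℚ :=
  Multiset.replicate (∑ i, deg T i) 0 +
    Multiset.replicate (ρ + ∑ i, ((T i).n - 2) * deg T i) 1 +
    Multiset.replicate (∑ i, deg T i) 2

/-- `T = Λ²_F H¹(A)` for an abelian variety `A` of dimension `2 [F : ℚ]` with multiplication by `F` such
that `H¹(A)` has rank four over `F` with the Hodge numbers `2, 2` for each embedding (`F` totally real, or
a CM field with signature `(2, 2)` at all places). `s v h φ` are the slopes of the part of the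
crystalline cohomology `H¹` with the index `φ`; their sum is two, they are between zero and one, and
the slopes of `Λ²` are the sums of two of them. -/
structure Abelian (T : System K ℓ) where
  s : ∀ v, v ∉ T.bad → Emb K T.F → Fin 4 → ℚ
  nonneg : ∀ v h φ j, 0 ≤ s v h φ j
  le_one : ∀ v h φ j, s v h φ j ≤ 1
  mono : ∀ v h φ, Monotone (s v h φ)
  sum : ∀ v h φ, ∑ j, s v h φ j = 2
  wedge : ∀ v h φ, ((Finset.univ : Finset (Fin 4 × Fin 4)).filter fun x => x.1 < x.2).val.map
    (fun x => s v h φ x.1 + s v h φ x.2) = Finset.univ.val.map ((T.place v h).s φ)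

/-- The `p`-rank of the reduction of `A`: the number of the slopes zero of `H¹`. -/
noncomputable def Abelian.prank {T : System K ℓ} (A : Abelian T) (v : HeightOneSpectrum (𝓞 K))
    (h : v ∉ T.bad) : ℕ :=
  ∑ φ, ((Finset.univ : Finset (Fin 4)).filter fun j => A.s v h φ j = 0).card

/-- The reduction of `A` is ordinary: the slopes of `H¹` are `0, 0, 1, 1` for all embeddings. -/
def Abelian.Ordinary {T : System K ℓ} (A : Abelian T) (v : HeightOneSpectrum (𝓞 K))
    (h : v ∉ T.bad) : Prop :=
  ∀ φ, A.s v h φ = ![0, 0, 1, 1]

end

end Pool.Agent.V7H31.IP
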