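import Pool.Agent.V7H31.IP.Defs
import Pool.Agent.V7H31.OD.Gen

/-!
# Places of the algebraic closure and Frobenius elements
-/

set_option autoImplicit false
set_option linter.all false

namespace Pool.Agent.V7H31.IP

open NumberField IsDedekindDomain Polynomial
open Pool.Agent.W401.Cheb Pool.Agent.W401.Frob Pool.Agent.N184.HK Pool.Agent.V7H31.OD

section

variable {K : Type} [Field K] [NumberField K] {v : HeightOneSpectrum (𝓞 K)} (w : PlaceAbove v)

lemma val_nonneg (x : AlgebraicClosure K) (hx : IsIntegral ℤ x) : 0 ≤ w.val x := by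
  set V := AddValuation.toValuation w.val with hV
  have h1 : IsIntegral V.integer x := hx.tower_top
  have h2 := Valuation.Integers.mem_of_integral (Valuation.integer.integers V) h1
  exact h2

/-- The maximal ideal of the place. -/
noncomputable def PlaceAbove.Q : Ideal (𝓞 (AlgebraicClosure K)) where
  carrier := {x | 0 < w.val (x : AlgebraicClosure K)}
  add_mem' := by
    intro a b ha hb
    exact (lt_min ha hb).trans_le (w.val.map_add _ _)
  zero_mem' := by
    change 0 < w.val (0 : AlgebraicClosure K)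
    rw [w.val.map_zero]
    exact WithTop.coe_lt_top 0
  smul_mem' := by
    intro a b hb
    change 0 < w.val ((a : AlgebraicClosure K) * (b : AlgebraicClosure K))
    rw [w.val.map_mul]
    exact lt_of_lt_of_le hb (le_add_of_nonneg_left (val_nonneg w _ a.2))

lemma mem_Q (x : 𝓞 (AlgebraicClosure K)) : x ∈ w.Q ↔ 0 < w.val (x : AlgebraicClosure K) := Iff.rfl

lemma Q_prime : w.Q.IsPrime := by
  refine ⟨?_, ?_⟩
  · rw [Ideal.ne_top_iff_one, mem_Q]
    change ¬ 0 < w.val (1 : AlgebraicClosure K)
    rw [w.val.map_one]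
    exact lt_irrefl _
  · intro a b hab
    have hab' : 0 < w.val ((a : AlgebraicClosure K) * (b : AlgebraicClosure K)) := hab
    rw [w.val.map_mul] at hab'
    by_contra hcon
    rw [not_or, mem_Q, mem_Q, not_lt, not_lt] at hcon
    have h1 := le_antisymm hcon.1 (val_nonneg w _ a.2)
    have h2 := le_antisymm hcon.2 (val_nonneg w _ b.2)
    rw [h1, h2, add_zero] at hab'
    exact lt_irrefl _ hab'

lemma Q_comap : w.Q.comap (algebraMap (𝓞 K) (𝓞 (AlgebraicClosure K))) = v.asIdeal := by
  have h := Q_prime w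
  have hp : (w.Q.comap (algebraMap (𝓞 K) (𝓞 (AlgebraicClosure K)))).IsPrime := Ideal.comap_isPrime _ _
  refine (v.isMaximal.eq_of_le hp.ne_top ?_).symm
  intro x hx
  exact w.above x hx

lemma Q_max : w.Q.IsMaximal := by
  haveI := Q_prime w
  refine Ideal.isMaximal_of_isIntegral_of_isMaximal_comap (R := 𝓞 K) _ ?_
  rw [Q_comap]
  exact v.isMaximal

/-- Each Frobenius element is conjugate to one for the given place. -/
lemma frob_place {σ : GK K} (hσ : IsFrob v σ) : ∃ ρ : GK K,
    ∀ x : 𝓞 (AlgebraicClosure K), (ρ * σ * ρ⁻¹) • x - x ^ Ideal.absNorm v.asIdeal ∈ w.Q := by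
  classical
  have : SMulCommClass (GK K) (𝓞 K) (𝓞 (AlgebraicClosure K)) := smulComm
  have : Algebra.IsInvariant (𝓞 K) (𝓞 (AlgebraicClosure K)) (GK K) := isInv
  let _ : TopologicalSpace (𝓞 (AlgebraicClosure K)) := ⊥
  have : DiscreteTopology (𝓞 (AlgebraicClosure K)) := ⟨rfl⟩
  have : ContinuousSMul (GK K) (𝓞 (AlgebraicClosure K)) := by
    rw [continuousSMul_iff_stabilizer_isOpen]
    intro x
    have h1 := stabilizer_isOpen_of_isIntegral (K := K) (x : AlgebraicClosure K)
    convert h1 using 2
    ext g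
    rw [MulAction.mem_stabilizer_iff, MulAction.mem_stabilizer_iff]
    constructor
    · intro h
      exact congrArg (fun z : (𝓞 (AlgebraicClosure K)) => (z : AlgebraicClosure K)) h
    · intro h
      exact RingOfIntegers.ext h
  obtain ⟨Q, hQm, hQv, hQ⟩ := hσ
  haveI := Q_max w
  obtain ⟨ρ, hρ⟩ := Algebra.IsInvariant.exists_smul_of_under_eq_of_profinite (A := 𝓞 K)
    (G := GK K) Q w.Q (hQv.trans (Q_comap w).symm)
  have hρ' : w.Q = tr ρ Q := by
    rw [hρ]
    ext x
    rw [mem_tr]
    exact Ideal.mem_pointwise_smul_iff_inv_smul_mem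
  refine ⟨ρ, fun x => ?_⟩
  rw [hρ']
  exact frob_conj v σ ρ Q hQ x

/-- A Frobenius for the place preserves the positive elements. -/
lemma frob_pos {σ : GK K} (hσ : ∀ x : 𝓞 (AlgebraicClosure K),
    σ • x - x ^ Ideal.absNorm v.asIdeal ∈ w.Q) (x : AlgebraicClosure K) (hx : IsIntegral ℤ x)
    (h : 0 < w.val x) : 0 < w.val (σ x) := by
  let y : 𝓞 (AlgebraicClosure K) := ⟨x, hx⟩
  have h1 : y ∈ w.Q := h
  have hN : Ideal.absNorm v.asIdeal ≠ 0 := by
    intro h0
    exact v.ne_bot (Ideal.absNorm_eq_zero_iff.1 h0)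
  have h2 : y ^ Ideal.absNorm v.asIdeal ∈ w.Q := Ideal.pow_mem_of_mem _ h1 _ (Nat.pos_of_ne_zero hN)
  have h3 := w.Q.add_mem (hσ y) h2
  rw [sub_add_cancel] at h3
  exact h3

/-- A Frobenius for the place preserves the elements which are not positive. -/
lemma frob_pos' {σ : GK K} (hσ : ∀ x : 𝓞 (AlgebraicClosure K),
    σ • x - x ^ Ideal.absNorm v.asIdeal ∈ w.Q) (x : AlgebraicClosure K) (hx : IsIntegral ℤ x)
    (h : 0 < w.val (σ x)) : 0 < w.val x := by
  let y : 𝓞 (AlgebraicClosure K) := ⟨x, hx⟩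
  have h1 : σ • y ∈ w.Q := h
  have h3 := w.Q.sub_mem h1 (hσ y)
  rw [sub_sub_cancel] at h3
  exact (Q_prime w).mem_of_pow_mem _ h3

lemma val_int' (n : ℤ) : 0 ≤ w.val (n : AlgebraicClosure K) := val_int w.val n

/-- Integers with positive valuation are divisible by `p`. -/
lemma dvd_of_pos (hp : (Ideal.absNorm v.asIdeal).Prime) (n : ℤ)
    (h : 0 < w.val (n : AlgebraicClosure K)) : (Ideal.absNorm v.asIdeal : ℤ) ∣ n := by
  by_contra hnd
  have hc : IsCoprime (Ideal.absNorm v.asIdeal : ℤ) n :=
    (Nat.prime_iff_prime_int.1 hp).irreducible.coprime_iff_not_dvd.2 hnd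
  obtain ⟨a, b, hab⟩ := hc
  have h6 : (1 : AlgebraicClosure K) = (a : AlgebraicClosure K) *
      (Ideal.absNorm v.asIdeal : AlgebraicClosure K) +
      (b : AlgebraicClosure K) * (n : AlgebraicClosure K) := by
    have := congrArg (fun z : ℤ => (z : AlgebraicClosure K)) hab
    push_cast at this
    exact this.symm
  have h7 : 0 < w.val (1 : AlgebraicClosure K) := by
    rw [h6]
    refine (lt_min ?_ ?_).trans_le (w.val.map_add _ _)
    · rw [w.val.map_mul, w.norm]
      exact lt_of_lt_of_le zero_lt_one (le_add_of_nonneg_left (val_int' w a))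
    · rw [w.val.map_mul]
      exact lt_of_lt_of_le h (le_add_of_nonneg_left (val_int' w b))
  rw [w.val.map_one] at h7
  exact lt_irrefl _ h7

/-- Coefficients of a product of linear factors with positive roots. -/
lemma coeff_pos (m : Multiset (AlgebraicClosure K)) (hm : ∀ z ∈ m, 0 < w.val z) :
    ∀ j : ℕ, 0 ≤ w.val ((m.map fun z => X - C z).prod.coeff j) ∧
      (j < Multiset.card m → 0 < w.val ((m.map fun z => X - C z).prod.coeff j)) := by
  induction m using Multiset.induction_on with
  | empty =>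
    intro j
    rw [Multiset.map_zero, Multiset.prod_zero, Polynomial.coeff_one]
    refine ⟨?_, fun h => absurd h (by simp)⟩
    split_ifs
    · rw [w.val.map_one]
    · rw [w.val.map_zero]; exact le_top
  | cons a s ih =>
    have ih' := ih fun z hz => hm z (Multiset.mem_cons_of_mem hz)
    have ha : 0 < w.val a := hm a (Multiset.mem_cons_self a s)
    intro j
    rw [Multiset.map_cons, Multiset.prod_cons, sub_mul, coeff_sub, coeff_C_mul, Multiset.card_cons]
    have h1 : 0 < w.val (a * ((s.map fun z => X - C z).prod.coeff j)) := by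
      rw [w.val.map_mul]
      exact lt_of_lt_of_le ha (le_add_of_nonneg_right (ih' j).1)
    cases j with
    | zero =>
      rw [coeff_X_mul_zero, zero_sub, w.val.map_neg]
      exact ⟨h1.le, fun _ => h1⟩
    | succ j =>
      rw [coeff_X_mul]
      refine ⟨(le_min (ih' j).1 h1.le).trans (w.val.map_sub _ _), fun hj => ?_⟩
      exact (lt_min ((ih' j).2 (by omega)) h1).trans_le (w.val.map_sub _ _)

end

end Pool.Agent.V7H31.IP
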